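import Pool.Agent.helper38.VA.Spec

/-!
# Row FIT of project va: linear algebra
-/

set_option autoImplicit false

namespace Pool.Agent.VA

open Matrix Module Pool.Agent.PR Pool.Agent.H48SL

theorem FIT_pow_fix {V : Type} [AddCommGroup V] [Module ℚ V] (T : V →ₗ[ℚ] V) (j m : ℕ) (x : V)
    (h : (T ^ j) x = x) : (T ^ (j * m)) x = x := by
  rw [pow_mul]
  induction m with
  | zero => simp
  | succ m ih => rw [pow_succ, Module.End.mul_apply, h, ih]

theorem FIT_max {V : Type} [AddCommGroup V] [Module ℚ V] [FiniteDimensional ℚ V] (T : V →ₗ[ℚ] V)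
    (U : Submodule ℚ V) :
    ∃ J : ℕ, 0 < J ∧ ∀ j : ℕ, 0 < j → ∀ x ∈ U, (T ^ j) x = x → (T ^ J) x = x := by
  let F : ℕ → Submodule ℚ V := fun j => U ⊓ LinearMap.ker (T ^ j - 1)
  have hF : ∀ j x, x ∈ F j ↔ x ∈ U ∧ (T ^ j) x = x := by
    intro j x
    simp only [F, Submodule.mem_inf, LinearMap.mem_ker, LinearMap.sub_apply, Module.End.one_apply,
      sub_eq_zero]
  have hb : ∀ j, finrank ℚ (F j) ≤ finrank ℚ V := fun j => Submodule.finrank_le _
  have hmax : ∃ J, 0 < J ∧ ∀ j, 0 < j → finrank ℚ (F j) ≤ finrank ℚ (F J) := by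
    by_contra hcon
    push Not at hcon
    have h1 : ∀ n : ℕ, ∃ J, 0 < J ∧ n ≤ finrank ℚ (F J) := by
      intro n
      induction n with
      | zero => exact ⟨1, one_pos, Nat.zero_le _⟩
      | succ n ih =>
        obtain ⟨J, hJ, h⟩ := ih
        obtain ⟨j, hj, h'⟩ := hcon J hJ
        exact ⟨j, hj, by omega⟩
    obtain ⟨J, _, h⟩ := h1 (finrank ℚ V + 1)
    have := hb J
    omega
  obtain ⟨J, hJ, hm⟩ := hmax
  refine ⟨J, hJ, fun j hj x hx hfix => ?_⟩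
  have hle : F J ≤ F (J * j) := by
    intro y hy
    rw [hF] at hy ⊢
    exact ⟨hy.1, FIT_pow_fix T J j y hy.2⟩
  have heq : F J = F (J * j) :=
    Submodule.eq_of_le_of_finrank_le hle (hm _ (Nat.mul_pos hJ hj))
  have hmem : x ∈ F (J * j) := by
    rw [hF]
    refine ⟨hx, ?_⟩
    rw [mul_comm]
    exact FIT_pow_fix T j J x hfix
  rw [← heq, hF] at hmem
  exact hmem.2

theorem FIT : FIT_stmt := by
  intro V _ _ _ T U hU hne
  obtain ⟨J, hJ, hfix⟩ := FIT_max T U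
  have hUp : ∀ j : ℕ, ∀ x ∈ U, (T ^ j) x ∈ U := by
    intro j
    induction j with
    | zero => intro x hx; simpa using hx
    | succ j ih =>
      intro x hx
      rw [pow_succ, Module.End.mul_apply]
      exact ih _ (hU x hx)
  by_cases hcase : ∃ x ∈ U, (T ^ J) x - x ≠ 0 ∧ (T ^ J) ((T ^ J) x - x) = (T ^ J) x - x
  · exact Or.inl ⟨J, hJ, hcase⟩
  right
  push Not at hcase
  -- the image of `U` under `T ^ J - 1`
  let U₁ : Submodule ℚ V := U.map (T ^ J - 1)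
  have hU₁ : ∀ y ∈ U₁, ∃ x ∈ U, (T ^ J) x - x = y := by
    rintro y ⟨x, hx, rfl⟩
    exact ⟨x, hx, by simp⟩
  have hU₁' : ∀ x ∈ U, (T ^ J) x - x ∈ U₁ := by
    intro x hx
    exact ⟨x, hx, by simp⟩
  have hle : U₁ ≤ U := by
    intro y hy
    obtain ⟨x, hx, rfl⟩ := hU₁ y hy
    exact U.sub_mem (hUp J x hx) hx
  have hnofix : ∀ j : ℕ, 0 < j → ∀ y ∈ U₁, (T ^ j) y = y → y = 0 := by
    intro j hj y hy hjy
    have h1 := hfix j hj y (hle hy) hjy
    obtain ⟨x, hx, rfl⟩ := hU₁ y hy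
    by_contra h0
    exact hcase x hx h0 h1
  have hne₁ : U₁ ≠ ⊥ := by
    intro hbot
    obtain ⟨x, hx, hx'⟩ := hne J hJ
    have h1 := hU₁' x hx
    rw [hbot, Submodule.mem_bot, sub_eq_zero] at h1
    exact hx' h1
  have hstab : ∀ y ∈ U₁, (T ^ 1) y ∈ U₁ := by
    intro y hy
    obtain ⟨x, hx, rfl⟩ := hU₁ y hy
    have h1 : (T ^ 1) ((T ^ J) x - x) = (T ^ J) (T x) - T x := by
      rw [pow_one, map_sub, ← Module.End.mul_apply, ← Module.End.mul_apply, ← pow_succ, ← pow_succ']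
    rw [h1]
    exact hU₁' (T x) (hU x hx)
  -- minimal choice
  have hex : ∃ n : ℕ, ∃ (i : ℕ) (W : Submodule ℚ V), 0 < i ∧ W ≤ U₁ ∧ W ≠ ⊥ ∧
      (∀ x ∈ W, (T ^ i) x ∈ W) ∧ finrank ℚ W = n :=
    ⟨_, 1, U₁, one_pos, le_rfl, hne₁, hstab, rfl⟩
  classical
  obtain ⟨i, W, hi, hW, hW0, hWs, hWn⟩ := Nat.find_spec hex
  refine ⟨i, W, hi, hW.trans hle, hW0, hWs, ?_, ?_⟩
  · intro j hj x hx h
    exact hnofix j hj x (hW hx) h
  · intro j hj W' hW' hW'0 hs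
    have h1 := Nat.find_min' hex (m := finrank ℚ W')
      ⟨i * j, W', Nat.mul_pos hi hj, hW'.trans hW, hW'0, hs, rfl⟩
    rw [← hWn] at h1
    exact Submodule.eq_of_le_of_finrank_le hW' h1

end Pool.Agent.VA
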